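import Mathlib

set_option autoImplicit false

namespace Pool.Agent.Y765.Bi

/-- a number with the bits of `f` at the multiples of `k` -/
def sp (k : ℕ) (f : ℕ → Bool) : ℕ → ℕ
  | 0 => 0
  | n + 1 => 2 ^ (k * n) * (f n).toNat + sp k f n

lemma sp_lt {k : ℕ} (hk : 0 < k) (f : ℕ → Bool) (n : ℕ) : sp k f n < 2 ^ (k * n) := by
  induction n with
  | zero => simp [sp]
  | succ n ih =>
    have h1 : (f n).toNat ≤ 1 := Bool.toNat_le _
    have h2 : 2 ^ (k * (n + 1)) = 2 ^ (k * n) * 2 ^ k := by rw [Nat.mul_add, Nat.mul_one, pow_add]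
    have h3 : 2 ≤ 2 ^ k := by
      calc 2 = 2 ^ 1 := rfl
        _ ≤ 2 ^ k := Nat.pow_le_pow_right (by norm_num) hk
    have h4 : 2 ^ (k * n) * (f n).toNat ≤ 2 ^ (k * n) * 1 := Nat.mul_le_mul_left _ h1
    have h5 : 2 ^ (k * n) * 2 ≤ 2 ^ (k * n) * 2 ^ k := Nat.mul_le_mul_left _ h3
    rw [h2]
    simp only [sp]
    omega

lemma testBit_sp {k : ℕ} (hk : 0 < k) (f : ℕ → Bool) (n i : ℕ) :
    (sp k f n).testBit i = (decide (k ∣ i) && decide (i / k < n) && f (i / k)) := by
  induction n with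
  | zero => simp [sp]
  | succ n ih =>
    simp only [sp]
    rw [Nat.testBit_two_pow_mul_add _ (sp_lt hk f n)]
    split_ifs with h
    · rw [ih]
      have h1 : i / k < n := by rw [Nat.div_lt_iff_lt_mul hk, mul_comm]; exact h
      simp [h1, Nat.lt_succ_of_lt h1]
    · push Not at h
      by_cases h2 : i = k * n
      · subst h2
        simp only [Nat.sub_self, dvd_mul_right, decide_true, Bool.true_and]
        rw [Nat.mul_div_cancel_left _ hk]
        simp only [Nat.lt_succ_self, decide_true, Bool.true_and]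
        cases f n <;> rfl
      · have h3 : k * n < i := lt_of_le_of_ne h (Ne.symm h2)
        have h4 : (f n).toNat.testBit (i - k * n) = false := by
          apply Nat.testBit_lt_two_pow
          calc (f n).toNat ≤ 1 := Bool.toNat_le _
            _ < 2 ^ (i - k * n) := Nat.one_lt_two_pow (by omega)
        rw [h4]
        by_cases h5 : k ∣ i
        · obtain ⟨j, rfl⟩ := h5
          rw [Nat.mul_div_cancel_left _ hk]
          have h6 : n < j := Nat.lt_of_mul_lt_mul_left h3
          have h7 : ¬ j < n + 1 := by omega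
          simp [h7]
        · simp [h5]

lemma sp_mod {k : ℕ} (f : ℕ → Bool) (n : ℕ) :
    sp k f n % (2 ^ k - 1) = (∑ j ∈ Finset.range n, (f j).toNat) % (2 ^ k - 1) := by
  have h0 : 2 ^ k ≡ 1 [MOD 2 ^ k - 1] := by
    have h1 : 1 ≤ 2 ^ k := Nat.one_le_two_pow
    exact ((Nat.modEq_iff_dvd' h1).mpr dvd_rfl).symm
  induction n with
  | zero => simp [sp]
  | succ n ih =>
    simp only [sp]
    rw [Finset.sum_range_succ, add_comm]
    have h2 : 2 ^ (k * n) * (f n).toNat ≡ (f n).toNat [MOD 2 ^ k - 1] := by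
      have := (h0.pow n).mul_right (f n).toNat
      rw [← pow_mul, one_pow, one_mul] at this
      exact this
    exact Nat.ModEq.add ih h2

/-- repunits -/
def ru (m : ℕ) : ℕ → ℕ
  | 0 => 0
  | n + 1 => 2 ^ m * ru m n + 1

lemma testBit_ru {m z : ℕ} (hz : z < 2 ^ m) (n i : ℕ) (hi : i < m * n) :
    (z * ru m n).testBit i = z.testBit (i % m) := by
  induction n generalizing i with
  | zero => simp at hi
  | succ n ih =>
    simp only [ru]
    have e : z * (2 ^ m * ru m n + 1) = 2 ^ m * (z * ru m n) + z := by ring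
    rw [e, Nat.testBit_two_pow_mul_add _ hz]
    split_ifs with h
    · rw [Nat.mod_eq_of_lt h]
    · push Not at h
      rw [ih (i - m) (by rw [Nat.mul_add, Nat.mul_one] at hi; omega)]
      congr 1
      rw [Nat.mod_eq_sub_mod h]

/-- the fast count of the one bits of a number below `2 ^ m` -/
def popc (m z : Nat) : Nat :=
  Nat.mod (Nat.land (Nat.mul z (Nat.div (Nat.sub (Nat.pow 2 (Nat.mul m m)) 1)
      (Nat.sub (Nat.pow 2 m) 1)))
    (Nat.div (Nat.sub (Nat.pow 2 (Nat.mul (Nat.succ m) m)) 1)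
      (Nat.sub (Nat.pow 2 (Nat.succ m)) 1)))
    (Nat.sub (Nat.pow 2 (Nat.succ m)) 1)

lemma ru_eq {m : ℕ} (hm : 0 < m) (n : ℕ) : ru m n = (2 ^ (m * n) - 1) / (2 ^ m - 1) := by
  have h1 : 2 ≤ 2 ^ m := by
    calc 2 = 2 ^ 1 := rfl
      _ ≤ 2 ^ m := Nat.pow_le_pow_right (by norm_num) hm
  have h2 : ru m n * (2 ^ m - 1) = 2 ^ (m * n) - 1 := by
    induction n with
    | zero => simp [ru]
    | succ n ih =>
      simp only [ru]
      obtain ⟨q, hq⟩ : ∃ q, 2 ^ m = q + 1 := ⟨2 ^ m - 1, by omega⟩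
      have h3 : 1 ≤ 2 ^ (m * n) := Nat.one_le_two_pow
      obtain ⟨s, hs⟩ : ∃ s, 2 ^ (m * n) = s + 1 := ⟨2 ^ (m * n) - 1, by omega⟩
      rw [Nat.mul_add, Nat.mul_one, pow_add, hs, hq]
      rw [hs, hq] at ih
      simp only [Nat.add_sub_cancel] at ih ⊢
      have e : (s + 1) * (q + 1) - 1 = s * (q + 1) + q := by
        have : (s + 1) * (q + 1) = s * (q + 1) + q + 1 := by ring
        omega
      rw [e, ← ih]
      ring
  rw [← h2, Nat.mul_div_cancel _ (by omega)]

lemma ru_eq_sp {k : ℕ} (hk : 0 < k) (n : ℕ) : ru k n = sp k (fun _ => true) n := by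
  induction n with
  | zero => rfl
  | succ n ih =>
    have h1 : ∀ n, ru k (n + 1) = 2 ^ (k * n) + ru k n := by
      intro n
      induction n with
      | zero => simp [ru]
      | succ n ih2 =>
        have e1 : ru k (n + 1 + 1) = 2 ^ k * ru k (n + 1) + 1 := rfl
        have e2 : ru k (n + 1) = 2 ^ k * ru k n + 1 := rfl
        have e3 := ih2
        rw [e2] at e3
        rw [e1, ih2, Nat.mul_add, Nat.mul_add k n 1, Nat.mul_one, pow_add]
        linarith
    rw [h1, ih]
    simp [sp]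

theorem popc_eq {m z : ℕ} (hm : 0 < m) (hz : z < 2 ^ m) :
    popc m z = ∑ j ∈ Finset.range m, (z.testBit j).toNat := by
  have hk : 0 < m + 1 := Nat.succ_pos m
  have h1 : popc m z = ((z * ((2 ^ (m * m) - 1) / (2 ^ m - 1))) &&&
      ((2 ^ ((m + 1) * m) - 1) / (2 ^ (m + 1) - 1))) % (2 ^ (m + 1) - 1) := rfl
  rw [h1, ← ru_eq hm m, ← ru_eq hk m, ru_eq_sp hk m]
  have h2 : (z * ru m m) &&& sp (m + 1) (fun _ => true) m = sp (m + 1) z.testBit m := by
    apply Nat.eq_of_testBit_eq
    intro i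
    rw [Nat.testBit_and, testBit_sp hk, testBit_sp hk]
    by_cases h3 : (m + 1) ∣ i
    · obtain ⟨j, rfl⟩ := h3
      rw [Nat.mul_div_cancel_left _ hk]
      by_cases h4 : j < m
      · rw [testBit_ru hz]
        · have h5 : (m + 1) * j % m = j := by
            rw [Nat.add_mul, Nat.one_mul, Nat.mul_add_mod, Nat.mod_eq_of_lt h4]
          simp [h4, h5]
        · nlinarith
      · simp [h4]
    · simp [h3]
  rw [h2, sp_mod]
  apply Nat.mod_eq_of_lt
  have h3 : ∑ j ∈ Finset.range m, (z.testBit j).toNat ≤ ∑ j ∈ Finset.range m, 1 :=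
    Finset.sum_le_sum (fun j _ => Bool.toNat_le _)
  have h4 : m + 1 < 2 ^ (m + 1) := Nat.lt_two_pow_self
  simp only [Finset.sum_const, Finset.card_range, smul_eq_mul, mul_one] at h3
  omega

end Pool.Agent.Y765.Bi
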