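import Pool.Agent.Helper770.Blowup
import Pool.Agent.Y765.Bi.Pop

set_option autoImplicit false

namespace Pool.Agent.Y765.Bi

open Pool.Agent.Helper770.Blowup Pool.Agent.Helper770.Blowup.Data

/-- a field of `k` bits of a packed table -/
def fld (k t i : Nat) : Nat := Nat.mod (Nat.shiftRight t (Nat.mul k i)) (Nat.pow 2 k)

/-- a bit of a packed table -/
def bt (t i : Nat) : Bool := Nat.beq (Nat.mod (Nat.shiftRight t i) 2) 1

lemma bt_eq (t i : ℕ) : bt t i = t.testBit i := by
  have h1 : (bt t i = true) ↔ (t >>> i) % 2 = 1 := by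
    unfold bt
    rw [Nat.beq_eq]
    exact Iff.rfl
  rw [Nat.shiftRight_eq_div_pow] at h1
  rw [Nat.testBit_eq_decide_div_mod_eq]
  by_cases h : t / 2 ^ i % 2 = 1
  · rw [h1.mpr h, h]; rfl
  · have h2 : bt t i = false := by
      cases hb : bt t i
      · rfl
      · exact absurd (h1.mp hb) h
    rw [h2]
    simp [h]

lemma fld_eq (k t i : ℕ) : fld k t i = (t >>> (k * i)) % 2 ^ k := rfl

lemma fld_lt (k t i : ℕ) : fld k t i < 2 ^ k := by
  rw [fld_eq]
  exact Nat.mod_lt _ (Nat.two_pow_pos k)

lemma fld_testBit (k t i j : ℕ) (hj : j < k) : (fld k t i).testBit j = t.testBit (i * k + j) := by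
  rw [fld_eq, Nat.testBit_mod_two_pow, Nat.testBit_shiftRight]
  simp [hj, mul_comm]

/-- a bit of a field of a packed table -/
def bt2 (k t i j : Nat) : Bool := bt (fld k t i) j

lemma bt2_eq (k t i j : ℕ) (hj : j < k) : bt2 k t i j = t.testBit (i * k + j) := by
  rw [bt2, bt_eq, fld_testBit k t i j hj]

/-- the data of a plane with packed coordinates of the base points and of the target points of the
directions -/
def mkD (m k X Y U V : ℕ) : Data m where
  bx v := ((fld k X v.val : ℕ) : ℤ)
  cy v := ((fld k Y v.val : ℕ) : ℤ)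
  dx v := ((fld k U v.val : ℕ) : ℤ) - ((fld k X v.val : ℕ) : ℤ)
  dy v := ((fld k V v.val : ℕ) : ℤ) - ((fld k Y v.val : ℕ) : ℤ)

/-- positive orientation -/
def gt (x1 y1 x2 y2 x3 y3 : Nat) : Bool :=
  Nat.ble (Nat.succ (Nat.add (Nat.add (Nat.mul x2 y1) (Nat.mul x1 y3)) (Nat.mul y2 x3)))
    (Nat.add (Nat.add (Nat.mul x2 y3) (Nat.mul y2 x1)) (Nat.mul y1 x3))

lemma gt_iff (x1 y1 x2 y2 x3 y3 : ℕ) : gt x1 y1 x2 y2 x3 y3 = true ↔
    0 < ((x2 : ℤ) - x1) * (y3 - y1) - ((y2 : ℤ) - y1) * (x3 - x1) := by
  have h1 : gt x1 y1 x2 y2 x3 y3 = true ↔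
      (x2 * y1 + x1 * y3 + y2 * x3) + 1 ≤ x2 * y3 + y2 * x1 + y1 * x3 := by
    unfold gt
    rw [Nat.ble_eq]
    exact Iff.rfl
  rw [h1]
  have h2 : ((x2 * y1 + x1 * y3 + y2 * x3) + 1 ≤ x2 * y3 + y2 * x1 + y1 * x3) ↔
      (((x2 : ℤ) * y1 + x1 * y3 + y2 * x3) + 1 ≤ x2 * y3 + y2 * x1 + y1 * x3) := by
    exact_mod_cast Iff.rfl
  rw [h2]
  constructor <;> intro h <;> nlinarith

/-- orientation check -/
def ok3 (b : Bool) (x1 y1 x2 y2 x3 y3 : Nat) : Bool :=
  cond b (gt x1 y1 x2 y2 x3 y3) (gt x2 y2 x1 y1 x3 y3)

lemma ok3_spec {b : Bool} {x1 y1 x2 y2 x3 y3 : ℕ} (h : ok3 b x1 y1 x2 y2 x3 y3 = true) {z : ℤ}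
    (hz : z = ((x2 : ℤ) - x1) * (y3 - y1) - ((y2 : ℤ) - y1) * (x3 - x1)) :
    z ≠ 0 ∧ decide (0 < z) = b ∧ decide (z < 0) = !b := by
  cases b with
  | true =>
    have h1 : gt x1 y1 x2 y2 x3 y3 = true := h
    rw [gt_iff, ← hz] at h1
    refine ⟨h1.ne', by simp [h1], ?_⟩
    have : ¬ z < 0 := by omega
    simp [this]
  | false =>
    have h1 : gt x2 y2 x1 y1 x3 y3 = true := h
    rw [gt_iff] at h1
    have h2 : z < 0 := by rw [hz]; nlinarith
    refine ⟨h2.ne, ?_, by simp [h2]⟩
    have : ¬ 0 < z := by omega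
    simp [this]

/-- the check of one entry of the orientation table -/
def ck (m k X Y U V T v w u : Nat) : Bool :=
  cond (Nat.beq v w)
    (cond (Nat.beq w u) (bt2 m T (Nat.add (Nat.mul v m) w) u)
      (ok3 (bt2 m T (Nat.add (Nat.mul v m) w) u)
        (fld k X v) (fld k Y v) (fld k U v) (fld k V v) (fld k X u) (fld k Y u)))
    (cond (Nat.beq v u)
      (ok3 (not (bt2 m T (Nat.add (Nat.mul v m) w) u))
        (fld k X v) (fld k Y v) (fld k U v) (fld k V v) (fld k X w) (fld k Y w))
      (cond (Nat.beq w u)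
        (ok3 (bt2 m T (Nat.add (Nat.mul v m) w) u)
          (fld k X w) (fld k Y w) (fld k U w) (fld k V w) (fld k X v) (fld k Y v))
        (ok3 (bt2 m T (Nat.add (Nat.mul v m) w) u)
          (fld k X v) (fld k Y v) (fld k X w) (fld k Y w) (fld k X u) (fld k Y u))))

/-- bounded universal check -/
def allB : Nat → (Nat → Bool) → Bool
  | 0, _ => true
  | k + 1, f => cond (f k) (allB k f) false

lemma allB_spec {n : ℕ} {f : ℕ → Bool} (h : allB n f = true) : ∀ i < n, f i = true := by
  induction n with
  | zero => intro i hi; omega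
  | succ n ih =>
    rw [allB] at h
    cases hf : f n with
    | false => rw [hf] at h; simp at h
    | true =>
      rw [hf] at h
      intro i hi
      rcases Nat.lt_succ_iff_lt_or_eq.mp hi with h1 | h1
      · exact ih h i h1
      · rw [h1]; exact hf

/-- bounded sum -/
def sumB : Nat → (Nat → Nat) → Nat
  | 0, _ => 0
  | k + 1, f => Nat.add (sumB k f) (f k)

lemma sumB_eq (n : ℕ) (f : ℕ → ℕ) : sumB n f = ∑ i : Fin n, f i.val := by
  rw [Fin.sum_univ_eq_sum_range]
  induction n with
  | zero => rfl
  | succ k ih => rw [Finset.sum_range_succ, ← ih]; rfl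

theorem table_spec {m k X Y U V T : ℕ}
    (h : ∀ v < m, ∀ w < m, ∀ u < m, ck m k X Y U V T v w u = true) :
    (mkD m k X Y U V).Ok ∧ ∀ v w u, (mkD m k X Y U V).o v w u =
      T.testBit ((v.val * m + w.val) * m + u.val) := by
  have key : ∀ v w u : Fin m, ((v ≠ w → u ≠ v → u ≠ w → (mkD m k X Y U V).oz v w u ≠ 0) ∧
      (v = w → w ≠ u → (mkD m k X Y U V).sz v u ≠ 0)) ∧ (mkD m k X Y U V).o v w u =
      T.testBit ((v.val * m + w.val) * m + u.val) := by
    intro v w u
    have h1 := h v v.2 w w.2 u u.2
    unfold ck at h1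
    have ev : ∀ a b : Fin m, Nat.beq a.val b.val = decide (a = b) := by
      intro a b
      by_cases hab : a = b
      · subst hab; simp
      · have : a.val ≠ b.val := fun hh => hab (Fin.ext hh)
        simp only [hab, decide_false]
        cases hb : Nat.beq a.val b.val
        · rfl
        · exact absurd (Nat.eq_of_beq_eq_true hb) this
    rw [ev, ev, ev, bt2_eq _ _ _ _ u.2] at h1
    change _ ∧ _ = T.testBit ((v.val * m + w.val) * m + u.val)
    change (cond (decide (v = w))
      (cond (decide (w = u)) (T.testBit ((v.val * m + w.val) * m + u.val))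
        (ok3 (T.testBit ((v.val * m + w.val) * m + u.val)) _ _ _ _ _ _)) _) = true at h1
    by_cases hvw : v = w
    · subst hvw
      by_cases hvu : v = u
      · subst hvu
        simp only [decide_true, cond_true] at h1
        refine ⟨⟨fun h => absurd rfl h, fun _ h => absurd rfl h⟩, ?_⟩
        rw [h1]
        simp [Data.o]
      · simp only [decide_true, cond_true, hvu, decide_false, cond_false] at h1
        have h2 := ok3_spec h1 (z := (mkD m k X Y U V).sz v u) (by simp only [Data.sz, mkD])
        refine ⟨⟨fun h => absurd rfl h, fun _ _ => h2.1⟩, ?_⟩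
        rw [← h2.2.1]
        simp [Data.o, hvu]
    · simp only [hvw, decide_false, cond_false] at h1
      by_cases hvu : v = u
      · subst hvu
        simp only [decide_true, cond_true] at h1
        have h2 := ok3_spec h1 (z := (mkD m k X Y U V).sz v w) (by simp only [Data.sz, mkD])
        refine ⟨⟨fun _ h => absurd rfl h, fun h => absurd h hvw⟩, ?_⟩
        have h3 := h2.2.2
        change decide ((mkD m k X Y U V).sz v w < 0) =
          !(!(T.testBit ((v.val * m + w.val) * m + v.val))) at h3
        rw [Bool.not_not] at h3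
        rw [← h3]
        simp [Data.o, hvw]
      · simp only [hvu, decide_false, cond_false] at h1
        by_cases hwu : w = u
        · subst hwu
          simp only [decide_true, cond_true] at h1
          have h2 := ok3_spec h1 (z := (mkD m k X Y U V).sz w v) (by simp only [Data.sz, mkD])
          refine ⟨⟨fun _ _ h => absurd rfl h, fun h => absurd h hvw⟩, ?_⟩
          have h3 := h2.2.1
          change decide (0 < (mkD m k X Y U V).sz w v) =
            T.testBit ((v.val * m + w.val) * m + w.val) at h3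
          rw [← h3]
          simp [Data.o, hvw]
        · simp only [hwu, decide_false, cond_false] at h1
          have h2 := ok3_spec h1 (z := (mkD m k X Y U V).oz v w u) (by simp only [Data.oz, mkD])
          refine ⟨⟨fun _ _ _ => h2.1, fun h => absurd h hvw⟩, ?_⟩
          have h3 := h2.2.1
          change decide (0 < (mkD m k X Y U V).oz v w u) =
            T.testBit ((v.val * m + w.val) * m + u.val) at h3
          rw [← h3]
          simp [Data.o, hvw, hvu, hwu]
  exact ⟨⟨fun v w u h1 h2 h3 => (key v w u).1.1 h1 h2 h3,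
    fun v w h1 => (key v v w).1.2 rfl h1⟩, fun v w u => (key v w u).2⟩

/-- the full mask or zero -/
def msk (m : Nat) (b : Bool) : Nat := cond b (Nat.sub (Nat.pow 2 m) 1) 0

lemma msk_testBit (m : ℕ) (b : Bool) (e : ℕ) (he : e < m) : (msk m b).testBit e = b := by
  cases b with
  | true =>
    have : msk m true = 2 ^ m - 1 := rfl
    rw [this, Nat.testBit_two_pow_sub_one]
    simp [he]
  | false =>
    have : msk m false = 0 := rfl
    rw [this]
    simp

lemma msk_lt (m : ℕ) (b : Bool) : msk m b < 2 ^ m := by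
  have h : 0 < 2 ^ m := Nat.two_pow_pos m
  cases b with
  | true =>
    have : msk m true = 2 ^ m - 1 := rfl
    omega
  | false =>
    have : msk m false = 0 := rfl
    omega

/-- the contribution of one triple -/
def trip (m T K a b c : Nat) : Nat :=
  Nat.add (Nat.add
    (cond (bt2 m K a b)
      (popc m (Nat.land (fld m K c) (Nat.land
        (Nat.xor (msk m (bt2 m T (Nat.add (Nat.mul a m) b) c))
          (fld m T (Nat.add (Nat.mul a m) b)))
        (Nat.xor (fld m T (Nat.add (Nat.mul a m) c)) (fld m T (Nat.add (Nat.mul b m) c)))))) 0)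
    (cond (bt2 m K a c)
      (popc m (Nat.land (fld m K b) (Nat.land
        (Nat.xor (msk m (not (bt2 m T (Nat.add (Nat.mul a m) b) c)))
          (fld m T (Nat.add (Nat.mul a m) c)))
        (Nat.xor (Nat.xor (fld m T (Nat.add (Nat.mul a m) b)) (fld m T (Nat.add (Nat.mul b m) c)))
          (msk m true))))) 0))
    (cond (bt2 m K b c)
      (popc m (Nat.land (fld m K a) (Nat.land
        (Nat.xor (fld m T (Nat.add (Nat.mul a m) b)) (fld m T (Nat.add (Nat.mul a m) c)))
        (Nat.xor (msk m (bt2 m T (Nat.add (Nat.mul a m) b) c))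
          (fld m T (Nat.add (Nat.mul b m) c)))))) 0)

/-- the contribution of the rows from `s` on -/
def rowC (m T K s n : Nat) : Nat :=
  sumB n fun a => sumB m fun b => sumB m fun c => trip m T K (Nat.add s a) b c

lemma popc_land {m : ℕ} (hm : 0 < m) (x y : ℕ) (hx : x < 2 ^ m) (f : ℕ → Bool)
    (hf : ∀ j < m, (x.testBit j && y.testBit j) = f j) :
    popc m (Nat.land x y) = ∑ e : Fin m, (if f e.val = true then 1 else 0) := by
  have h1 : Nat.land x y = x &&& y := rfl
  rw [h1, popc_eq hm (lt_of_le_of_lt Nat.and_le_left hx),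
    Fin.sum_univ_eq_sum_range (fun j => if f j = true then 1 else 0)]
  refine Finset.sum_congr rfl (fun j hj => ?_)
  rw [Nat.testBit_and, hf j (Finset.mem_range.mp hj)]
  cases f j <;> rfl

lemma trip_eq {m : ℕ} (T K : ℕ) (a b c : Fin m) :
    trip m T K a b c =
      ∑ e : Fin m, (if (K.testBit (a * m + b) && K.testBit (c * m + e) &&
          (T.testBit ((a * m + b) * m + c) ^^ T.testBit ((a * m + b) * m + e)) &&
          (T.testBit ((a * m + c) * m + e) ^^ T.testBit ((b * m + c) * m + e))) = true
        then 1 else 0) +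
      ∑ e : Fin m, (if (K.testBit (a * m + c) && K.testBit (b * m + e) &&
          ((!(T.testBit ((a * m + b) * m + c))) ^^ T.testBit ((a * m + c) * m + e)) &&
          (T.testBit ((a * m + b) * m + e) ^^ T.testBit ((b * m + c) * m + e) ^^ true)) = true
        then 1 else 0) +
      ∑ e : Fin m, (if (K.testBit (b * m + c) && K.testBit (a * m + e) &&
          (T.testBit ((a * m + b) * m + e) ^^ T.testBit ((a * m + c) * m + e)) &&
          (T.testBit ((a * m + b) * m + c) ^^ T.testBit ((b * m + c) * m + e))) = true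
        then 1 else 0) := by
  have hm : 0 < m := lt_of_le_of_lt (Nat.zero_le _) a.2
  have h0 : trip m T K a b c = (cond (bt2 m K a b)
      (popc m (Nat.land (fld m K c) (
        (msk m (bt2 m T (a * m + b) c) ^^^ fld m T (a * m + b)) &&&
        (fld m T (a * m + c) ^^^ fld m T (b * m + c))))) 0) +
      (cond (bt2 m K a c)
      (popc m (Nat.land (fld m K b) (
        (msk m (!(bt2 m T (a * m + b) c)) ^^^ fld m T (a * m + c)) &&&
        (fld m T (a * m + b) ^^^ fld m T (b * m + c) ^^^ msk m true)))) 0) +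
      (cond (bt2 m K b c)
      (popc m (Nat.land (fld m K a) (
        (fld m T (a * m + b) ^^^ fld m T (a * m + c)) &&&
        (msk m (bt2 m T (a * m + b) c) ^^^ fld m T (b * m + c))))) 0) := rfl
  rw [h0, bt2_eq _ _ _ _ b.2, bt2_eq _ _ _ _ c.2, bt2_eq _ _ _ _ c.2, bt2_eq _ _ _ _ c.2]
  congr 1
  · congr 1
    · cases hK : K.testBit (a * m + b) with
      | false => simp
      | true =>
        simp only [Bool.true_and]
        rw [cond_true]
        refine popc_land hm _ _ (fld_lt _ _ _) (fun e => (K.testBit (c * m + e) &&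
          (T.testBit ((a * m + b) * m + c) ^^ T.testBit ((a * m + b) * m + e)) &&
          (T.testBit ((a * m + c) * m + e) ^^ T.testBit ((b * m + c) * m + e)))) (fun j hj => ?_)
        simp only [Nat.testBit_and, Nat.testBit_xor, fld_testBit _ _ _ _ hj,
          msk_testBit _ _ _ hj, Bool.and_assoc]
    · cases hK : K.testBit (a * m + c) with
      | false => simp
      | true =>
        simp only [Bool.true_and]
        rw [cond_true]
        refine popc_land hm _ _ (fld_lt _ _ _) (fun e => (K.testBit (b * m + e) &&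
          ((!(T.testBit ((a * m + b) * m + c))) ^^ T.testBit ((a * m + c) * m + e)) &&
          (T.testBit ((a * m + b) * m + e) ^^ T.testBit ((b * m + c) * m + e) ^^ true)))
          (fun j hj => ?_)
        simp only [Nat.testBit_and, Nat.testBit_xor, fld_testBit _ _ _ _ hj,
          msk_testBit _ _ _ hj, Bool.and_assoc]
  · cases hK : K.testBit (b * m + c) with
      | false => simp
      | true =>
        simp only [Bool.true_and]
        rw [cond_true]
        refine popc_land hm _ _ (fld_lt _ _ _) (fun e => (K.testBit (a * m + e) &&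
          (T.testBit ((a * m + b) * m + e) ^^ T.testBit ((a * m + c) * m + e)) &&
          (T.testBit ((a * m + b) * m + c) ^^ T.testBit ((b * m + c) * m + e))))
          (fun j hj => ?_)
        simp only [Nat.testBit_and, Nat.testBit_xor, fld_testBit _ _ _ _ hj,
          msk_testBit _ _ _ hj, Bool.and_assoc]

theorem count {m : ℕ} (D : Data m) (col : Fin m → Fin m → Bool) (p : Bool) (T K : ℕ)
    (ho : ∀ v w u, D.o v w u = T.testBit ((v.val * m + w.val) * m + u.val))
    (hc : ∀ v w, (col v w = p) ↔ K.testBit (v.val * m + w.val) = true) :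
    (T0 D col p).card + (T1 D col p).card + (T2 D col p).card = rowC m T K 0 m := by
  unfold T0 T1 T2 rowC
  rw [Finset.card_filter, Finset.card_filter, Finset.card_filter, ← Finset.sum_add_distrib,
    ← Finset.sum_add_distrib, Fintype.sum_prod_type, sumB_eq]
  refine Finset.sum_congr rfl (fun a _ => ?_)
  rw [Fintype.sum_prod_type, sumB_eq]
  refine Finset.sum_congr rfl (fun b _ => ?_)
  rw [Fintype.sum_prod_type, sumB_eq]
  refine Finset.sum_congr rfl (fun c _ => ?_)
  have e0 : Nat.add 0 a.val = a.val := Nat.zero_add _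
  rw [e0, trip_eq, ← Finset.sum_add_distrib, ← Finset.sum_add_distrib]
  refine Finset.sum_congr rfl (fun e _ => ?_)
  simp only [ho, hc]
  have hx : ∀ x y A B : Bool, (if (x && y && (A ^^ B)) = true then (1 : ℕ) else 0) =
    if (x && y && (A ^^ B)) = true then 1 else 0 := fun _ _ _ _ => rfl
  congr 1
  · congr 1
    · refine if_congr ?_ rfl rfl
      cases K.testBit (a * m + b) <;> cases K.testBit (c * m + e) <;>
      cases T.testBit ((a * m + b) * m + c) <;> cases T.testBit ((a * m + b) * m + e) <;>
      cases T.testBit ((a * m + c) * m + e) <;> cases T.testBit ((b * m + c) * m + e) <;> simp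
    · refine if_congr ?_ rfl rfl
      cases K.testBit (a * m + c) <;> cases K.testBit (b * m + e) <;>
      cases T.testBit ((a * m + b) * m + c) <;> cases T.testBit ((a * m + b) * m + e) <;>
      cases T.testBit ((a * m + c) * m + e) <;> cases T.testBit ((b * m + c) * m + e) <;> simp
  · refine if_congr ?_ rfl rfl
    cases K.testBit (a * m + e) <;> cases K.testBit (b * m + c) <;>
    cases T.testBit ((a * m + b) * m + c) <;> cases T.testBit ((a * m + b) * m + e) <;>
    cases T.testBit ((a * m + c) * m + e) <;> cases T.testBit ((b * m + c) * m + e) <;> simp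

lemma rowC_add (m T K s n l : ℕ) : rowC m T K s (n + l) = rowC m T K s n + rowC m T K (s + n) l := by
  induction l with
  | zero => rfl
  | succ l ih =>
    have h1 : rowC m T K s (n + (l + 1)) = rowC m T K s (n + l) +
      sumB m fun b => sumB m fun c => trip m T K (s + (n + l)) b c := rfl
    have h2 : rowC m T K (s + n) (l + 1) = rowC m T K (s + n) l +
      sumB m fun b => sumB m fun c => trip m T K (s + n + l) b c := rfl
    rw [h1, h2, ih, Nat.add_assoc, Nat.add_assoc s n l]

end Pool.Agent.Y765.Bi
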