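import Pool.Agent.Y765.Bi.Core

set_option autoImplicit false

namespace Pool.Agent.Y765.Bi

open Pool.Agent.Helper770.Blowup Pool.Agent.Helper770.Blowup.Data

/-- repunit in closed form -/
def ruN (k n : Nat) : Nat :=
  Nat.div (Nat.sub (Nat.pow 2 (Nat.mul k n)) 1) (Nat.sub (Nat.pow 2 k) 1)

lemma ruN_eq {k : ℕ} (hk : 0 < k) (n : ℕ) : ruN k n = ru k n := (ru_eq hk n).symm

/-- spreading of the bits of a number to the multiples of `k + 1` -/
def spr (k n z : Nat) : Nat := Nat.land (Nat.mul z (ruN k n)) (ruN (Nat.succ k) n)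

lemma spr_eq {k n z : ℕ} (hk : 0 < k) (hz : z < 2 ^ k) (hn : n ≤ k) :
    spr k n z = sp (k + 1) z.testBit n := by
  have hk1 : 0 < k + 1 := Nat.succ_pos k
  have h1 : spr k n z = (z * ruN k n) &&& ruN (k + 1) n := rfl
  rw [h1, ruN_eq hk, ruN_eq hk1, ru_eq_sp hk1]
  apply Nat.eq_of_testBit_eq
  intro i
  rw [Nat.testBit_and, testBit_sp hk1, testBit_sp hk1]
  by_cases h3 : (k + 1) ∣ i
  · obtain ⟨j, rfl⟩ := h3
    rw [Nat.mul_div_cancel_left _ hk1]
    by_cases h4 : j < n
    · rw [testBit_ru hz]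
      · have h5 : (k + 1) * j % k = j := by
          rw [Nat.add_mul, Nat.one_mul, Nat.mul_add_mod, Nat.mod_eq_of_lt (by omega)]
        simp [h4, h5]
      · nlinarith
    · simp [h4]
  · simp [h3]

lemma spr_testBit {k n z : ℕ} (hk : 0 < k) (hz : z < 2 ^ k) (hn : n ≤ k) (u : ℕ) (hu : u < n) :
    (spr k n z).testBit ((k + 1) * u) = z.testBit u := by
  rw [spr_eq hk hz hn, testBit_sp (Nat.succ_pos k), Nat.mul_div_cancel_left _ (Nat.succ_pos k)]
  simp [hu]

/-- blocks of ones -/
def blk (m R : Nat) : Nat := Nat.mul (spr m m R) (Nat.sub (Nat.pow 2 m) 1)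

lemma sp_mul_lt {m : ℕ} (f : ℕ → Bool) (n : ℕ) :
    sp (m + 1) f n * (2 ^ m - 1) < 2 ^ ((m + 1) * n) := by
  induction n with
  | zero => simp [sp]
  | succ n ih =>
    simp only [sp]
    obtain ⟨q, hq⟩ : ∃ q, 2 ^ m = q + 1 := ⟨2 ^ m - 1, by have := Nat.one_le_two_pow (n := m); omega⟩
    have h1 : 2 ^ ((m + 1) * (n + 1)) = 2 ^ ((m + 1) * n) * (2 * (q + 1)) := by
      rw [Nat.mul_add, Nat.mul_one, pow_add, pow_succ 2 m, hq]; ring
    rw [h1]
    rw [hq] at ih ⊢
    simp only [Nat.add_sub_cancel] at ih ⊢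
    set A := 2 ^ ((m + 1) * n)
    have h2 : A * (f n).toNat ≤ A * 1 := Nat.mul_le_mul_left _ (Bool.toNat_le _)
    have h3 : A * (f n).toNat * q ≤ A * q := by nlinarith
    have h4 : 0 < A := Nat.two_pow_pos _
    nlinarith

lemma testBit_sp_mul {m : ℕ} (f : ℕ → Bool) (n c e : ℕ) (hc : c < n) (he : e ≤ m) :
    (sp (m + 1) f n * (2 ^ m - 1)).testBit ((m + 1) * c + e) = (f c && decide (e < m)) := by
  induction n with
  | zero => omega
  | succ n ih =>
    simp only [sp]
    have e1 : (2 ^ ((m + 1) * n) * (f n).toNat + sp (m + 1) f n) * (2 ^ m - 1) =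
      2 ^ ((m + 1) * n) * ((f n).toNat * (2 ^ m - 1)) + sp (m + 1) f n * (2 ^ m - 1) := by ring
    rw [e1, Nat.testBit_two_pow_mul_add _ (sp_mul_lt f n)]
    rcases Nat.lt_succ_iff_lt_or_eq.mp hc with h | h
    · have h2 : (m + 1) * c + e < (m + 1) * n := by nlinarith
      rw [if_pos h2]
      exact ih h
    · subst h
      rw [if_neg (by omega), Nat.add_sub_cancel_left]
      cases f c with
      | false => simp
      | true => simp

lemma blk_testBit {m R : ℕ} (hm : 0 < m) (hR : R < 2 ^ m) (c e : ℕ) (hc : c < m) (he : e ≤ m) :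
    (blk m R).testBit ((m + 1) * c + e) = (R.testBit c && decide (e < m)) := by
  have h1 : blk m R = spr m m R * (2 ^ m - 1) := rfl
  rw [h1, spr_eq hm hR le_rfl]
  exact testBit_sp_mul _ m c e hc he

/-- repetition of a row -/
def rpt (m R : Nat) : Nat := Nat.mul R (ruN (Nat.succ m) m)

lemma rpt_testBit {m R : ℕ} (hR : R < 2 ^ (m + 1)) (c e : ℕ) (hc : c < m) (he : e ≤ m) :
    (rpt m R).testBit ((m + 1) * c + e) = R.testBit e := by
  have h1 : rpt m R = R * ruN (m + 1) m := rfl
  rw [h1, ruN_eq (Nat.succ_pos m), testBit_ru hR]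
  · rw [Nat.mul_add_mod, Nat.mod_eq_of_lt (by omega)]
  · nlinarith

/-- the count of ones by sixteen residue classes -/
def pbig (n z : Nat) : Nat :=
  Nat.mod (sumB 16 fun r => Nat.land (Nat.shiftRight z r) (ruN 16 n)) 65535

lemma class_eq (n z r : ℕ) :
    (z >>> r) &&& ru 16 n = sp 16 (fun j => z.testBit (16 * j + r)) n := by
  rw [ru_eq_sp (by norm_num)]
  apply Nat.eq_of_testBit_eq
  intro i
  rw [Nat.testBit_and, testBit_sp (by norm_num), testBit_sp (by norm_num), Nat.testBit_shiftRight]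
  by_cases h3 : 16 ∣ i
  · obtain ⟨j, rfl⟩ := h3
    rw [Nat.mul_div_cancel_left _ (by norm_num), add_comm r]
    by_cases h4 : j < n
    · simp [h4]
    · simp [h4]
  · simp [h3]

lemma sum_blocks (s n : ℕ) (g : ℕ → ℕ) :
    ∑ i ∈ Finset.range (s * n), g i = ∑ c ∈ Finset.range n, ∑ e ∈ Finset.range s, g (s * c + e) := by
  induction n with
  | zero => simp
  | succ n ih =>
    rw [Nat.mul_add, Nat.mul_one, Finset.sum_range_add, ih, Finset.sum_range_succ]

lemma pbig_eq {n z : ℕ} (h : 16 * n < 65535) :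
    pbig n z = ∑ i ∈ Finset.range (16 * n), (z.testBit i).toNat := by
  have h1 : pbig n z = (sumB 16 fun r => (z >>> r) &&& ruN 16 n) % (2 ^ 16 - 1) := rfl
  rw [h1, sumB_eq, Fin.sum_univ_eq_sum_range (fun r => (z >>> r) &&& ruN 16 n)]
  have h2 : (∑ r ∈ Finset.range 16, ((z >>> r) &&& ruN 16 n)) % (2 ^ 16 - 1) =
      (∑ r ∈ Finset.range 16, ∑ j ∈ Finset.range n, (z.testBit (16 * j + r)).toNat) %
        (2 ^ 16 - 1) := by
    rw [Finset.sum_nat_mod, Finset.sum_nat_mod _ _ (fun r => ∑ j ∈ Finset.range n,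
      (z.testBit (16 * j + r)).toNat)]
    congr 1
    refine Finset.sum_congr rfl (fun r _ => ?_)
    rw [ruN_eq (by norm_num), class_eq, sp_mod]
  rw [h2, Finset.sum_comm, ← sum_blocks 16 n (fun i => (z.testBit i).toNat)]
  apply Nat.mod_eq_of_lt
  have h3 : ∑ j ∈ Finset.range (16 * n), (z.testBit j).toNat ≤ ∑ j ∈ Finset.range (16 * n), 1 :=
    Finset.sum_le_sum (fun j _ => Bool.toNat_le _)
  simp only [Finset.sum_const, Finset.card_range, smul_eq_mul, mul_one] at h3
  have h4 : (2 : ℕ) ^ 16 - 1 = 65535 := by norm_num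
  omega

lemma pbig_grid {m n z : ℕ} (h16 : 16 * n = (m + 1) * m) (hlt : 16 * n < 65535)
    (f : ℕ → ℕ → Bool)
    (hf : ∀ c < m, ∀ e ≤ m, z.testBit ((m + 1) * c + e) = (decide (e < m) && f c e)) :
    pbig n z = ∑ c : Fin m, ∑ e : Fin m, (if f c e = true then 1 else 0) := by
  rw [pbig_eq hlt, h16, sum_blocks, Finset.sum_range]
  refine Finset.sum_congr rfl (fun c _ => ?_)
  rw [Finset.sum_range_succ, hf c c.2 m le_rfl]
  simp only [lt_irrefl, decide_false, Bool.false_and, Bool.toNat_false, add_zero]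
  rw [Finset.sum_range]
  refine Finset.sum_congr rfl (fun e _ => ?_)
  rw [hf c c.2 e e.2.le]
  simp only [e.2, decide_true, Bool.true_and]
  cases f c e <;> rfl

/-- the contribution of one pair -/
def pairC (m n T K a b : Nat) : Nat :=
  Nat.add (Nat.add
    (cond (bt2 (Nat.succ m) K a b)
      (pbig n (Nat.land (Nat.land K (rpt m (Nat.sub (Nat.pow 2 m) 1))) (Nat.land
        (Nat.xor (blk m (Nat.mod (fld (Nat.succ m) T (Nat.add (Nat.mul a m) b)) (Nat.pow 2 m)))
          (rpt m (fld (Nat.succ m) T (Nat.add (Nat.mul a m) b))))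
        (Nat.xor (fld (Nat.mul (Nat.succ m) m) T a) (fld (Nat.mul (Nat.succ m) m) T b))))) 0)
    (pbig n (Nat.land
      (Nat.land (blk m (Nat.mod (fld (Nat.succ m) K a) (Nat.pow 2 m)))
        (rpt m (fld (Nat.succ m) K b)))
      (Nat.land
        (Nat.xor (Nat.xor
          (blk m (Nat.mod (fld (Nat.succ m) T (Nat.add (Nat.mul a m) b)) (Nat.pow 2 m)))
          (fld (Nat.mul (Nat.succ m) m) T a)) (rpt m (Nat.sub (Nat.pow 2 m) 1)))
        (Nat.xor (Nat.xor (rpt m (fld (Nat.succ m) T (Nat.add (Nat.mul a m) b)))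
          (fld (Nat.mul (Nat.succ m) m) T b)) (rpt m (Nat.sub (Nat.pow 2 m) 1)))))))
    (pbig n (Nat.land
      (Nat.land (blk m (Nat.mod (fld (Nat.succ m) K b) (Nat.pow 2 m)))
        (rpt m (fld (Nat.succ m) K a)))
      (Nat.land
        (Nat.xor (rpt m (fld (Nat.succ m) T (Nat.add (Nat.mul a m) b)))
          (fld (Nat.mul (Nat.succ m) m) T a))
        (Nat.xor (blk m (Nat.mod (fld (Nat.succ m) T (Nat.add (Nat.mul a m) b)) (Nat.pow 2 m)))
          (fld (Nat.mul (Nat.succ m) m) T b)))))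

/-- the contribution of the rows from `s` on -/
def rowP (m n T K s l : Nat) : Nat :=
  sumB l fun a => sumB m fun b => pairC m n T K (Nat.add s a) b

lemma rowP_add (m n T K s l l' : ℕ) :
    rowP m n T K s (l + l') = rowP m n T K s l + rowP m n T K (s + l) l' := by
  induction l' with
  | zero => rfl
  | succ l' ih =>
    have h1 : rowP m n T K s (l + (l' + 1)) = rowP m n T K s (l + l') +
      sumB m fun b => pairC m n T K (s + (l + l')) b := rfl
    have h2 : rowP m n T K (s + l) (l' + 1) = rowP m n T K (s + l) l' +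
      sumB m fun b => pairC m n T K (s + l + l') b := rfl
    rw [h1, h2, ih, Nat.add_assoc, Nat.add_assoc s l l']

lemma fldbig_testBit {m : ℕ} (T a c e : ℕ) (hc : c < m) (he : e ≤ m) :
    (fld ((m + 1) * m) T a).testBit ((m + 1) * c + e) =
      T.testBit ((a * m + c) * (m + 1) + e) := by
  rw [fld_testBit _ _ _ _ (by nlinarith)]
  congr 1
  ring

lemma fldrow_testBit {m : ℕ} (T i e : ℕ) (he : e ≤ m) :
    (fld (m + 1) T i).testBit e = T.testBit (i * (m + 1) + e) :=
  fld_testBit _ _ _ _ (by omega)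

lemma modrow_testBit {m : ℕ} (T i e : ℕ) (he : e < m) :
    (fld (m + 1) T i % 2 ^ m).testBit e = T.testBit (i * (m + 1) + e) := by
  rw [Nat.testBit_mod_two_pow, fldrow_testBit _ _ _ he.le]
  simp [he]

lemma full_testBit {m e : ℕ} (c : ℕ) (hc : c < m) (he : e ≤ m) :
    (rpt m (2 ^ m - 1)).testBit ((m + 1) * c + e) = decide (e < m) := by
  rw [rpt_testBit _ c e hc he, Nat.testBit_two_pow_sub_one]
  have : 2 ^ (m + 1) = 2 * 2 ^ m := by rw [pow_succ, mul_comm]
  have h : 0 < 2 ^ m := Nat.two_pow_pos m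
  omega

lemma pair_eq {m n : ℕ} (h16 : 16 * n = (m + 1) * m) (hlt : 16 * n < 65535) (T K : ℕ)
    (a b : Fin m) :
    pairC m n T K a b =
      ∑ c : Fin m, ∑ e : Fin m, (if (K.testBit (a * (m + 1) + b) &&
          (K.testBit (c * (m + 1) + e) &&
          ((T.testBit ((a * m + b) * (m + 1) + c) ^^ T.testBit ((a * m + b) * (m + 1) + e)) &&
          (T.testBit ((a * m + c) * (m + 1) + e) ^^ T.testBit ((b * m + c) * (m + 1) + e)))))
          = true
        then 1 else 0) +
      ∑ c : Fin m, ∑ e : Fin m, (if ((K.testBit (a * (m + 1) + c) &&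
          K.testBit (b * (m + 1) + e)) &&
          ((T.testBit ((a * m + b) * (m + 1) + c) ^^ T.testBit ((a * m + c) * (m + 1) + e) ^^
            true) &&
          (T.testBit ((a * m + b) * (m + 1) + e) ^^ T.testBit ((b * m + c) * (m + 1) + e) ^^
            true))) = true
        then 1 else 0) +
      ∑ c : Fin m, ∑ e : Fin m, (if ((K.testBit (b * (m + 1) + c) &&
          K.testBit (a * (m + 1) + e)) &&
          ((T.testBit ((a * m + b) * (m + 1) + e) ^^ T.testBit ((a * m + c) * (m + 1) + e)) &&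
          (T.testBit ((a * m + b) * (m + 1) + c) ^^ T.testBit ((b * m + c) * (m + 1) + e))))
          = true
        then 1 else 0) := by
  have hm : 0 < m := lt_of_le_of_lt (Nat.zero_le _) a.2
  have hmod : ∀ x i : ℕ, fld (m + 1) x i % 2 ^ m < 2 ^ m := fun x i =>
    Nat.mod_lt _ (Nat.two_pow_pos m)
  have h0 : pairC m n T K a b = (cond (bt2 (m + 1) K a b)
      (pbig n ((K &&& rpt m (2 ^ m - 1)) &&& (
        (blk m (fld (m + 1) T (a * m + b) % 2 ^ m) ^^^ rpt m (fld (m + 1) T (a * m + b))) &&&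
        (fld ((m + 1) * m) T a ^^^ fld ((m + 1) * m) T b)))) 0) +
      (pbig n ((blk m (fld (m + 1) K a % 2 ^ m) &&& rpt m (fld (m + 1) K b)) &&& (
        (blk m (fld (m + 1) T (a * m + b) % 2 ^ m) ^^^ fld ((m + 1) * m) T a ^^^
          rpt m (2 ^ m - 1)) &&&
        (rpt m (fld (m + 1) T (a * m + b)) ^^^ fld ((m + 1) * m) T b ^^^ rpt m (2 ^ m - 1))))) +
      (pbig n ((blk m (fld (m + 1) K b % 2 ^ m) &&& rpt m (fld (m + 1) K a)) &&& (
        (rpt m (fld (m + 1) T (a * m + b)) ^^^ fld ((m + 1) * m) T a) &&&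
        (blk m (fld (m + 1) T (a * m + b) % 2 ^ m) ^^^ fld ((m + 1) * m) T b)))) := rfl
  rw [h0, bt2_eq _ _ _ _ (by omega)]
  congr 1
  · congr 1
    · cases hK : K.testBit (a * (m + 1) + b) with
      | false => simp
      | true =>
        simp only [Bool.true_and]
        rw [cond_true]
        refine pbig_grid h16 hlt (fun c e => (K.testBit (c * (m + 1) + e) &&
          ((T.testBit ((a * m + b) * (m + 1) + c) ^^ T.testBit ((a * m + b) * (m + 1) + e)) &&
          (T.testBit ((a * m + c) * (m + 1) + e) ^^ T.testBit ((b * m + c) * (m + 1) + e)))))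
          (fun c hc e he => ?_)
        simp only [Nat.testBit_and, Nat.testBit_xor, full_testBit c hc he,
          blk_testBit hm (hmod T (a * m + b)) c e hc he, modrow_testBit _ _ _ hc,
          rpt_testBit (fld_lt (m + 1) _ _) c e hc he, fldrow_testBit _ _ _ he,
          fldbig_testBit _ _ _ _ hc he]
        rw [mul_comm (m + 1) c]
        by_cases h : e < m
        · simp [h]
        · simp [h]
    · refine pbig_grid h16 hlt (fun c e => ((K.testBit (a * (m + 1) + c) &&
          K.testBit (b * (m + 1) + e)) &&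
          ((T.testBit ((a * m + b) * (m + 1) + c) ^^ T.testBit ((a * m + c) * (m + 1) + e) ^^
            true) &&
          (T.testBit ((a * m + b) * (m + 1) + e) ^^ T.testBit ((b * m + c) * (m + 1) + e) ^^
            true)))) (fun c hc e he => ?_)
      simp only [Nat.testBit_and, Nat.testBit_xor, full_testBit c hc he,
          blk_testBit hm (hmod T (a * m + b)) c e hc he, modrow_testBit _ _ _ hc,
          blk_testBit hm (hmod K a) c e hc he,
          rpt_testBit (fld_lt (m + 1) _ _) c e hc he, fldrow_testBit _ _ _ he,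
          fldbig_testBit _ _ _ _ hc he]
      by_cases h : e < m
      · simp [h]
      · simp [h]
  · refine pbig_grid h16 hlt (fun c e => ((K.testBit (b * (m + 1) + c) &&
          K.testBit (a * (m + 1) + e)) &&
          ((T.testBit ((a * m + b) * (m + 1) + e) ^^ T.testBit ((a * m + c) * (m + 1) + e)) &&
          (T.testBit ((a * m + b) * (m + 1) + c) ^^ T.testBit ((b * m + c) * (m + 1) + e)))))
          (fun c hc e he => ?_)
    simp only [Nat.testBit_and, Nat.testBit_xor, full_testBit c hc he,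
          blk_testBit hm (hmod T (a * m + b)) c e hc he, modrow_testBit _ _ _ hc,
          blk_testBit hm (hmod K b) c e hc he,
          rpt_testBit (fld_lt (m + 1) _ _) c e hc he, fldrow_testBit _ _ _ he,
          fldbig_testBit _ _ _ _ hc he]
    by_cases h : e < m
    · simp [h]
    · simp [h]

theorem countP {m n : ℕ} (h16 : 16 * n = (m + 1) * m) (hlt : 16 * n < 65535)
    (D : Data m) (col : Fin m → Fin m → Bool) (p : Bool) (T K : ℕ)
    (ho : ∀ v w u, D.o v w u = T.testBit ((v.val * m + w.val) * (m + 1) + u.val))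
    (hc : ∀ v w, (col v w = p) ↔ K.testBit (v.val * (m + 1) + w.val) = true) :
    (T0 D col p).card + (T1 D col p).card + (T2 D col p).card = rowP m n T K 0 m := by
  unfold T0 T1 T2 rowP
  rw [Finset.card_filter, Finset.card_filter, Finset.card_filter, ← Finset.sum_add_distrib,
    ← Finset.sum_add_distrib, Fintype.sum_prod_type, sumB_eq]
  refine Finset.sum_congr rfl (fun a _ => ?_)
  rw [Fintype.sum_prod_type, sumB_eq]
  refine Finset.sum_congr rfl (fun b _ => ?_)
  have e0 : Nat.add 0 a.val = a.val := Nat.zero_add _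
  rw [e0, pair_eq h16 hlt, Fintype.sum_prod_type, ← Finset.sum_add_distrib,
    ← Finset.sum_add_distrib]
  refine Finset.sum_congr rfl (fun c _ => ?_)
  rw [← Finset.sum_add_distrib, ← Finset.sum_add_distrib]
  refine Finset.sum_congr rfl (fun e _ => ?_)
  simp only [ho, hc]
  congr 1
  · congr 1
    · refine if_congr ?_ rfl rfl
      cases K.testBit (a * (m + 1) + b) <;> cases K.testBit (c * (m + 1) + e) <;>
      cases T.testBit ((a * m + b) * (m + 1) + c) <;> cases T.testBit ((a * m + b) * (m + 1) + e) <;>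
      cases T.testBit ((a * m + c) * (m + 1) + e) <;> cases T.testBit ((b * m + c) * (m + 1) + e) <;>
      simp
    · refine if_congr ?_ rfl rfl
      cases K.testBit (a * (m + 1) + c) <;> cases K.testBit (b * (m + 1) + e) <;>
      cases T.testBit ((a * m + b) * (m + 1) + c) <;> cases T.testBit ((a * m + b) * (m + 1) + e) <;>
      cases T.testBit ((a * m + c) * (m + 1) + e) <;> cases T.testBit ((b * m + c) * (m + 1) + e) <;>
      simp
  · refine if_congr ?_ rfl rfl
    cases K.testBit (a * (m + 1) + e) <;> cases K.testBit (b * (m + 1) + c) <;>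
    cases T.testBit ((a * m + b) * (m + 1) + c) <;> cases T.testBit ((a * m + b) * (m + 1) + e) <;>
    cases T.testBit ((a * m + c) * (m + 1) + e) <;> cases T.testBit ((b * m + c) * (m + 1) + e) <;>
    simp

end Pool.Agent.Y765.Bi
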