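import Pool.Agent.Helper770.Straight

set_option autoImplicit false

namespace Pool.Agent.Y765.Bi

open Pool.Agent.Helper770.Crossing Pool.Agent.Helper770.Straight Filter Topology

/-- The ratio of the biplanar crossing number of the complete graph on `n` vertices and the
binomial coefficient `n` over `4`. -/
noncomputable def ratio (n : ℕ) : ℝ :=
  (biplanarCrossingNumber (⊤ : SimpleGraph (Fin n)) : ℝ) / (n.choose 4 : ℝ)

section
variable {m M : ℕ}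

lemma upper (hm : 0 < m) (h : ∀ t : ℕ, biplanarCrossingNumber (⊤ : SimpleGraph (Fin m × Fin t)) ≤
      t.choose 4 * M + 4 * (t ^ 3 * m ^ 4)) (n : ℕ) :
    (biplanarCrossingNumber (⊤ : SimpleGraph (Fin n)) : ℝ) ≤
    M / (24 * m ^ 4) * ((n : ℝ) + m) ^ 4 + 4 * m * ((n : ℝ) + m) ^ 3 := by
  have hm' : (0 : ℝ) < m := by exact_mod_cast hm
  have h1 : biplanarCrossingNumber (⊤ : SimpleGraph (Fin n)) ≤
      (n / m + 1).choose 4 * M + 4 * ((n / m + 1) ^ 3 * m ^ 4) := by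
    refine (biplanar_top_le ?_).trans (h (n / m + 1))
    rw [Fintype.card_prod, Fintype.card_fin, Fintype.card_fin, Fintype.card_fin]
    have := Nat.div_add_mod n m
    have h2 := Nat.mod_lt n hm
    rw [Nat.mul_add, Nat.mul_one]
    omega
  have h2 : (biplanarCrossingNumber (⊤ : SimpleGraph (Fin n)) : ℝ) ≤
      ((n / m + 1 : ℕ).choose 4 : ℝ) * M + 4 * (((n / m + 1 : ℕ) : ℝ) ^ 3 * m ^ 4) := by
    exact_mod_cast h1
  have h3 : ((n / m + 1 : ℕ).choose 4 : ℝ) ≤ ((n / m + 1 : ℕ) : ℝ) ^ 4 / 24 := by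
    have := Nat.choose_le_pow_div (α := ℝ) 4 (n / m + 1)
    have e : ((Nat.factorial 4 : ℕ) : ℝ) = 24 := by norm_num [Nat.factorial]
    rw [e] at this
    exact this
  have h4 : ((n / m + 1 : ℕ) : ℝ) ≤ ((n : ℝ) + m) / m := by
    have h5 : ((n / m : ℕ) : ℝ) ≤ (n : ℝ) / m := @Nat.cast_div_le ℝ _ _ _ n m
    push_cast
    rw [add_div, div_self hm'.ne']
    linarith
  have h0 : (0 : ℝ) ≤ ((n / m + 1 : ℕ) : ℝ) := Nat.cast_nonneg _
  have h6 : ((n / m + 1 : ℕ) : ℝ) ^ 4 ≤ (((n : ℝ) + m) / m) ^ 4 := pow_le_pow_left₀ h0 h4 4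
  have h7 : ((n / m + 1 : ℕ) : ℝ) ^ 3 ≤ (((n : ℝ) + m) / m) ^ 3 := pow_le_pow_left₀ h0 h4 3
  have hM : (0 : ℝ) ≤ M := Nat.cast_nonneg _
  have hm4 : (0 : ℝ) ≤ (m : ℝ) ^ 4 := by positivity
  calc (biplanarCrossingNumber (⊤ : SimpleGraph (Fin n)) : ℝ)
      ≤ ((n / m + 1 : ℕ).choose 4 : ℝ) * M + 4 * (((n / m + 1 : ℕ) : ℝ) ^ 3 * m ^ 4) := h2
    _ ≤ (((((n : ℝ) + m) / m) ^ 4) / 24) * M + 4 * ((((n : ℝ) + m) / m) ^ 3 * m ^ 4) := by
        have a1 : ((n / m + 1 : ℕ).choose 4 : ℝ) ≤ ((((n : ℝ) + m) / m) ^ 4) / 24 :=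
          h3.trans (by linarith)
        have a2 := mul_le_mul_of_nonneg_right a1 hM
        have a3 := mul_le_mul_of_nonneg_right h7 hm4
        linarith
    _ = _ := by
        field_simp

lemma lower (n : ℕ) (hn : 4 ≤ n) : ((n : ℝ) - 3) ^ 4 / 24 ≤ (n.choose 4 : ℝ) := by
  have h1 : (n + 1 - 4) ^ 4 ≤ n.descFactorial 4 := Nat.pow_sub_le_descFactorial n 4
  rw [Nat.descFactorial_eq_factorial_mul_choose] at h1
  have h2 : (((n + 1 - 4 : ℕ) : ℝ)) ^ 4 ≤ 24 * (n.choose 4 : ℝ) := by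
    have e : (Nat.factorial 4) = 24 := rfl
    rw [e] at h1
    exact_mod_cast h1
  have h3 : ((n + 1 - 4 : ℕ) : ℝ) = (n : ℝ) - 3 := by
    have : n + 1 - 4 = n - 3 := by omega
    rw [this, Nat.cast_sub (by omega)]
    norm_num
  rw [h3] at h2
  linarith

lemma ratio_le (hm : 0 < m) (h : ∀ t : ℕ, biplanarCrossingNumber (⊤ : SimpleGraph (Fin m × Fin t)) ≤
      t.choose 4 * M + 4 * (t ^ 3 * m ^ 4)) (n : ℕ) (hn : 4 ≤ n) : ratio n ≤
    M / m ^ 4 * (((n : ℝ) + m) / ((n : ℝ) - 3)) ^ 4 +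
      96 * m * ((((n : ℝ) + m) / ((n : ℝ) - 3)) ^ 3 * (1 / ((n : ℝ) - 3))) := by
  have hm' : (0 : ℝ) < m := by exact_mod_cast hm
  have hn' : (4 : ℝ) ≤ n := by exact_mod_cast hn
  have hp : 0 < (n : ℝ) - 3 := by linarith
  have h1 := upper hm h n
  have h2 := lower n hn
  have h3 : 0 < ((n : ℝ) - 3) ^ 4 / 24 := by positivity
  unfold ratio
  calc (biplanarCrossingNumber (⊤ : SimpleGraph (Fin n)) : ℝ) / (n.choose 4 : ℝ)
      ≤ (M / (24 * m ^ 4) * ((n : ℝ) + m) ^ 4 + 4 * m * ((n : ℝ) + m) ^ 3) /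
        (((n : ℝ) - 3) ^ 4 / 24) := by
        apply div_le_div₀ (by positivity) h1 h3 h2
    _ = _ := by
        field_simp
        ring

lemma tend_bound (m M : ℕ) :
    Tendsto (fun n : ℕ => (M : ℝ) / m ^ 4 * (((n : ℝ) + m) / ((n : ℝ) - 3)) ^ 4 +
      96 * m * ((((n : ℝ) + m) / ((n : ℝ) - 3)) ^ 3 * (1 / ((n : ℝ) - 3)))) atTop
      (𝓝 ((M : ℝ) / m ^ 4)) := by
  have ht : Tendsto (fun n : ℕ => (n : ℝ) - 3) atTop atTop :=
    tendsto_atTop_add_const_right _ _ tendsto_natCast_atTop_atTop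
  have h1 : Tendsto (fun n : ℕ => 1 / ((n : ℝ) - 3)) atTop (𝓝 0) :=
    ht.const_div_atTop 1
  have h2 : Tendsto (fun n : ℕ => ((n : ℝ) + m) / ((n : ℝ) - 3)) atTop (𝓝 1) := by
    have h3 : Tendsto (fun n : ℕ => 1 + ((m : ℝ) + 3) * (1 / ((n : ℝ) - 3))) atTop
        (𝓝 (1 + ((m : ℝ) + 3) * 0)) :=
      (h1.const_mul ((m : ℝ) + 3)).const_add 1
    rw [mul_zero, add_zero] at h3
    refine h3.congr' ?_
    filter_upwards [eventually_ge_atTop 4] with n hn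
    have hn' : (4 : ℝ) ≤ n := by exact_mod_cast hn
    have hp : (n : ℝ) - 3 ≠ 0 := by linarith
    field_simp
    ring
  have h4 := ((h2.pow 4).const_mul ((M : ℝ) / m ^ 4)).add
    (((h2.pow 3).mul h1).const_mul (96 * (m : ℝ)))
  simpa using h4

theorem limit_of (hm : 0 < m)
    (h : ∀ t : ℕ, biplanarCrossingNumber (⊤ : SimpleGraph (Fin m × Fin t)) ≤
      t.choose 4 * M + 4 * (t ^ 3 * m ^ 4)) :
    (∀ ε : ℝ, 0 < ε → ∀ᶠ n : ℕ in atTop, ratio n ≤ (M : ℝ) / m ^ 4 + ε) ∧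
      (∀ c : ℝ, Tendsto ratio atTop (𝓝 c) → c ≤ (M : ℝ) / m ^ 4) := by
  refine ⟨fun ε hε => ?_, fun c hc => ?_⟩
  · have h2 := (tend_bound m M).eventually
      (gt_mem_nhds (show ((M : ℝ) / m ^ 4) < (M : ℝ) / m ^ 4 + ε by linarith))
    filter_upwards [h2, eventually_ge_atTop 4] with n h3 h4
    exact (ratio_le hm h n h4).trans h3.le
  · refine le_of_tendsto_of_tendsto hc (tend_bound m M) ?_
    filter_upwards [eventually_ge_atTop 4] with n h4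
    exact ratio_le hm h n h4

end

end Pool.Agent.Y765.Bi
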