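import Pool.Agent.Y765.Bi.Fast

set_option autoImplicit false

namespace Pool.Agent.Y765.Bi

open Pool.Agent.Helper770.Blowup Pool.Agent.Helper770.Blowup.Data

/-- packed sum -/
def pk (k : ℕ) (f : ℕ → ℕ) : ℕ → ℕ
  | 0 => 0
  | n + 1 => 2 ^ (k * n) * f n + pk k f n

lemma pk_lt {k : ℕ} (f : ℕ → ℕ) (n : ℕ) (hf : ∀ i < n, f i < 2 ^ k) : pk k f n < 2 ^ (k * n) := by
  induction n with
  | zero => simp [pk]
  | succ n ih =>
    simp only [pk]
    have h1 := ih (fun i hi => hf i (by omega))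
    have h2 := hf n (by omega)
    have h3 : 2 ^ (k * (n + 1)) = 2 ^ (k * n) * 2 ^ k := by rw [Nat.mul_add, Nat.mul_one, pow_add]
    rw [h3]
    have h4 : 2 ^ (k * n) * (f n + 1) ≤ 2 ^ (k * n) * 2 ^ k := Nat.mul_le_mul_left _ h2
    rw [Nat.mul_add, Nat.mul_one] at h4
    omega

lemma pk_testBit {k : ℕ} (f : ℕ → ℕ) (n : ℕ) (hf : ∀ i < n, f i < 2 ^ k) (u j : ℕ) (hu : u < n)
    (hj : j < k) : (pk k f n).testBit (k * u + j) = (f u).testBit j := by
  induction n with
  | zero => omega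
  | succ n ih =>
    simp only [pk]
    rw [Nat.testBit_two_pow_mul_add _ (pk_lt f n (fun i hi => hf i (by omega)))]
    rcases Nat.lt_succ_iff_lt_or_eq.mp hu with h | h
    · have h2 : k * u + j < k * n := by
        have : k * (u + 1) ≤ k * n := Nat.mul_le_mul_left _ h
        rw [Nat.mul_add, Nat.mul_one] at this
        omega
      rw [if_pos h2]
      exact ih (fun i hi => hf i (by omega)) h
    · subst h
      rw [if_neg (by omega), Nat.add_sub_cancel_left]

lemma pk_fld (k X n : ℕ) : pk k (fld k X) n = X % 2 ^ (k * n) := by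
  induction n with
  | zero => simp [pk, Nat.mod_one]
  | succ n ih =>
    simp only [pk]
    rw [ih, fld_eq, Nat.shiftRight_eq_div_pow, Nat.mul_add, Nat.mul_one, pow_add, Nat.mod_mul,
      add_comm]

lemma pk_add (k : ℕ) (f g : ℕ → ℕ) (n : ℕ) :
    pk k f n + pk k g n = pk k (fun u => f u + g u) n := by
  induction n with
  | zero => rfl
  | succ n ih =>
    simp only [pk]
    rw [← ih]
    ring

lemma pk_mul (k c : ℕ) (f : ℕ → ℕ) (n : ℕ) : c * pk k f n = pk k (fun u => c * f u) n := by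
  induction n with
  | zero => rfl
  | succ n ih =>
    simp only [pk]
    rw [← ih]
    ring

lemma pk_congr (k : ℕ) (f g : ℕ → ℕ) (n : ℕ) (h : ∀ i < n, f i = g i) : pk k f n = pk k g n := by
  induction n with
  | zero => rfl
  | succ n ih =>
    simp only [pk]
    rw [ih (fun i hi => h i (by omega)), h n (by omega)]

lemma pk_one (k n : ℕ) : pk k (fun _ => 1) n = sp k (fun _ => true) n := by
  induction n with
  | zero => rfl
  | succ n ih => simp only [pk, sp, ih]; rfl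

/-- the packed positive parts -/
def pos (k m X Y x1 y1 x2 y2 : Nat) : Nat :=
  Nat.add (Nat.add (Nat.mul x2 Y) (Nat.mul (Nat.mul y2 x1) (ruN k m))) (Nat.mul y1 X)

/-- the packed negative parts -/
def neg (k m X Y x1 y1 x2 y2 : Nat) : Nat :=
  Nat.add (Nat.add (Nat.mul x1 Y) (Nat.mul (Nat.mul x2 y1) (ruN k m))) (Nat.mul y2 X)

/-- packed differences with the offset `h` -/
def dif (k m X Y x1 y1 x2 y2 h : Nat) : Nat :=
  Nat.sub (Nat.add (pos k m X Y x1 y1 x2 y2) (Nat.mul h (ruN k m))) (neg k m X Y x1 y1 x2 y2)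

lemma dif_eq {k m X Y x1 y1 x2 y2 h : ℕ} (hk : 0 < k) (hX : X < 2 ^ (k * m))
    (hY : Y < 2 ^ (k * m))
    (hle : ∀ u < m, x1 * fld k Y u + x2 * y1 + y2 * fld k X u ≤
      x2 * fld k Y u + y2 * x1 + y1 * fld k X u + h) :
    dif k m X Y x1 y1 x2 y2 h = pk k (fun u => (x2 * fld k Y u + y2 * x1 + y1 * fld k X u + h) -
      (x1 * fld k Y u + x2 * y1 + y2 * fld k X u)) m := by
  have eX : X = pk k (fld k X) m := by rw [pk_fld, Nat.mod_eq_of_lt hX]
  have eY : Y = pk k (fld k Y) m := by rw [pk_fld, Nat.mod_eq_of_lt hY]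
  have eJ : ruN k m = pk k (fun _ => 1) m := by rw [ruN_eq hk, ru_eq_sp hk, pk_one]
  have h1 : pos k m X Y x1 y1 x2 y2 + h * ruN k m =
      pk k (fun u => x2 * fld k Y u + y2 * x1 + y1 * fld k X u + h) m := by
    have e : pos k m X Y x1 y1 x2 y2 = x2 * Y + (y2 * x1) * ruN k m + y1 * X := rfl
    rw [e, eJ]
    nth_rewrite 1 [eX, eY]
    rw [pk_mul, pk_mul, pk_mul, pk_mul, pk_add, pk_add, pk_add]
    apply pk_congr
    intro i _
    ring
  have h2 : neg k m X Y x1 y1 x2 y2 =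
      pk k (fun u => x1 * fld k Y u + x2 * y1 + y2 * fld k X u) m := by
    have e : neg k m X Y x1 y1 x2 y2 = x1 * Y + (x2 * y1) * ruN k m + y2 * X := rfl
    rw [e, eJ]
    nth_rewrite 1 [eX, eY]
    rw [pk_mul, pk_mul, pk_mul, pk_add, pk_add]
    apply pk_congr
    intro i _
    ring
  have h3 : dif k m X Y x1 y1 x2 y2 h =
      (pos k m X Y x1 y1 x2 y2 + h * ruN k m) - neg k m X Y x1 y1 x2 y2 := rfl
  rw [h3, h1, h2]
  apply Nat.sub_eq_of_eq_add
  rw [pk_add]
  apply pk_congr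
  intro i hi
  have := hle i hi
  omega

lemma testBit_top {q x : ℕ} (hx : x < 2 ^ (q + 1)) : x.testBit q = decide (2 ^ q ≤ x) := by
  rw [Nat.testBit_eq_decide_div_mod_eq]
  have h1 : 0 < 2 ^ q := Nat.two_pow_pos q
  have h2 : x / 2 ^ q < 2 := by
    rw [Nat.div_lt_iff_lt_mul h1]
    rw [pow_succ, mul_comm] at hx
    exact hx
  by_cases h : 2 ^ q ≤ x
  · have h3 : 1 ≤ x / 2 ^ q := (Nat.one_le_div_iff h1).mpr h
    have h4 : x / 2 ^ q = 1 := by omega
    simp [h4, h]
  · push Not at h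
    rw [Nat.div_eq_of_lt h]
    have : ¬ 2 ^ q ≤ x := not_le.mpr h
    simp [this]

/-- the mask of two indices -/
def m2 (v w : Nat) : Nat := Nat.lor (Nat.pow 2 v) (Nat.pow 2 w)

/-- the packed check of one row -/
def chkRow (q m X Y x1 y1 x2 y2 M R : Nat) : Bool :=
  and (Nat.beq (Nat.land (Nat.shiftRight (dif (Nat.succ q) m X Y x1 y1 x2 y2 (Nat.pow 2 q)) q)
      (ruN (Nat.succ q) m)) (spr q m (Nat.lor R M)))
    (Nat.beq (Nat.land (Nat.shiftRight
      (dif (Nat.succ q) m X Y x1 y1 x2 y2 (Nat.sub (Nat.pow 2 q) 1)) q)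
      (ruN (Nat.succ q) m)) (spr q m (Nat.xor (Nat.lor R M) M)))

lemma chkRow_spec {q m X Y x1 y1 x2 y2 M R B : ℕ} (hq : 0 < q) (hmq : m ≤ q)
    (hX : X < 2 ^ ((q + 1) * m)) (hY : Y < 2 ^ ((q + 1) * m))
    (hR : R < 2 ^ q) (hM : M < 2 ^ q) (hB : 3 * B ^ 2 < 2 ^ q)
    (hx1 : x1 < B) (hy1 : y1 < B) (hx2 : x2 < B) (hy2 : y2 < B)
    (hXB : ∀ u < m, fld (q + 1) X u < B) (hYB : ∀ u < m, fld (q + 1) Y u < B)
    (h : chkRow q m X Y x1 y1 x2 y2 M R = true) (u : ℕ) (hu : u < m) (hMu : M.testBit u = false) :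
    ok3 (R.testBit u) x1 y1 x2 y2 (fld (q + 1) X u) (fld (q + 1) Y u) = true := by
  have hq1 : 0 < q + 1 := Nat.succ_pos q
  have hR1 : (R ||| M) < 2 ^ q := Nat.or_lt_two_pow hR hM
  have hR0 : ((R ||| M) ^^^ M) < 2 ^ q := Nat.xor_lt_two_pow hR1 hM
  have hmulB : ∀ a b : ℕ, a < B → b < B → a * b ≤ B ^ 2 := by
    intro a b ha hb
    rw [pow_two]
    exact Nat.mul_le_mul ha.le hb.le
  have hneg : ∀ u < m, x1 * fld (q + 1) Y u + x2 * y1 + y2 * fld (q + 1) X u ≤ 3 * B ^ 2 := by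
    intro u hu
    have a1 := hmulB _ _ hx1 (hYB u hu)
    have a2 := hmulB _ _ hx2 hy1
    have a3 := hmulB _ _ hy2 (hXB u hu)
    omega
  have hpos : ∀ u < m, x2 * fld (q + 1) Y u + y2 * x1 + y1 * fld (q + 1) X u ≤ 3 * B ^ 2 := by
    intro u hu
    have a1 := hmulB _ _ hx2 (hYB u hu)
    have a2 := hmulB _ _ hy2 hx1
    have a3 := hmulB _ _ hy1 (hXB u hu)
    omega
  have key : ∀ t : ℕ, t ≤ 2 ^ q → 2 ^ q ≤ t + 1 →
      ((dif (q + 1) m X Y x1 y1 x2 y2 t >>> q) &&& ruN (q + 1) m).testBit ((q + 1) * u) =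
        decide (2 ^ q ≤ (x2 * fld (q + 1) Y u + y2 * x1 + y1 * fld (q + 1) X u + t) -
          (x1 * fld (q + 1) Y u + x2 * y1 + y2 * fld (q + 1) X u)) := by
    intro t ht1 ht2
    rw [dif_eq hq1 hX hY (fun u hu => by have := hneg u hu; omega)]
    rw [Nat.testBit_and, Nat.testBit_shiftRight, ruN_eq hq1, ru_eq_sp hq1, testBit_sp hq1,
      Nat.mul_div_cancel_left _ hq1]
    have hb : ∀ i < m, (x2 * fld (q + 1) Y i + y2 * x1 + y1 * fld (q + 1) X i + t) -
          (x1 * fld (q + 1) Y i + x2 * y1 + y2 * fld (q + 1) X i) < 2 ^ (q + 1) := by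
      intro i hi
      have := hpos i hi
      rw [pow_succ]
      omega
    rw [add_comm q ((q + 1) * u), pk_testBit _ m hb u q hu (Nat.lt_succ_self q),
      testBit_top (hb u hu)]
    simp [hu]
  unfold chkRow at h
  rw [Bool.and_eq_true] at h
  have e1 := Nat.eq_of_beq_eq_true h.1
  have e2 := Nat.eq_of_beq_eq_true h.2
  have f1 := key (2 ^ q) le_rfl (by omega)
  have f2 := key (2 ^ q - 1) (by omega) (by have := Nat.one_le_two_pow (n := q); omega)
  have g1 : ((dif (q + 1) m X Y x1 y1 x2 y2 (2 ^ q) >>> q) &&& ruN (q + 1) m) =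
    spr q m (R ||| M) := e1
  have g2 : ((dif (q + 1) m X Y x1 y1 x2 y2 (2 ^ q - 1) >>> q) &&& ruN (q + 1) m) =
    spr q m ((R ||| M) ^^^ M) := e2
  rw [g1, spr_testBit hq hR1 hmq u hu, Nat.testBit_or, hMu, Bool.or_false] at f1
  rw [g2, spr_testBit hq hR0 hmq u hu, Nat.testBit_xor, Nat.testBit_or, hMu, Bool.or_false,
    Bool.xor_false] at f2
  have n1 := hneg u hu
  have p1 := hpos u hu
  cases hb : R.testBit u with
  | true =>
    rw [hb] at f2
    have f3 := of_decide_eq_true f2.symm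
    change gt x1 y1 x2 y2 _ _ = true
    rw [gt]
    rw [Nat.ble_eq]
    change (x2 * y1 + x1 * fld (q + 1) Y u + y2 * fld (q + 1) X u) + 1 ≤
      x2 * fld (q + 1) Y u + y2 * x1 + y1 * fld (q + 1) X u
    omega
  | false =>
    rw [hb] at f1
    have f3 := of_decide_eq_false f1.symm
    change gt x2 y2 x1 y1 _ _ = true
    rw [gt]
    rw [Nat.ble_eq]
    change (x1 * y2 + x2 * fld (q + 1) Y u + y1 * fld (q + 1) X u) + 1 ≤
      x1 * fld (q + 1) Y u + y1 * x2 + y2 * fld (q + 1) X u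
    have c1 : x1 * y2 = y2 * x1 := mul_comm _ _
    have c2 : y1 * x2 = x2 * y1 := mul_comm _ _
    rw [c1, c2]
    omega

/-- equality of bits -/
def eqb (a b : Bool) : Bool := cond a b (not b)

lemma eqb_spec {a b : Bool} (h : eqb a b = true) : a = b := by
  cases a <;> cases b <;> simp_all [eqb]

/-- the complete check of one pair -/
def chk (q m X Y U V T v w : Nat) : Bool :=
  cond (Nat.beq v w)
    (and (bt2 (Nat.succ m) T (Nat.add (Nat.mul v m) v) v)
      (chkRow q m X Y (fld (Nat.succ q) X v) (fld (Nat.succ q) Y v) (fld (Nat.succ q) U v)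
        (fld (Nat.succ q) V v) (m2 v v)
        (Nat.mod (fld (Nat.succ m) T (Nat.add (Nat.mul v m) v)) (Nat.pow 2 m))))
    (and (and (eqb (bt2 (Nat.succ m) T (Nat.add (Nat.mul v m) w) v)
        (not (bt2 (Nat.succ m) T (Nat.add (Nat.mul v m) v) w)))
        (eqb (bt2 (Nat.succ m) T (Nat.add (Nat.mul v m) w) w)
          (bt2 (Nat.succ m) T (Nat.add (Nat.mul w m) w) v)))
      (chkRow q m X Y (fld (Nat.succ q) X v) (fld (Nat.succ q) Y v) (fld (Nat.succ q) X w)
        (fld (Nat.succ q) Y w) (m2 v w)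
        (Nat.mod (fld (Nat.succ m) T (Nat.add (Nat.mul v m) w)) (Nat.pow 2 m))))

/-- the check of all bounds -/
def bnd (q m X Y U V B : Nat) : Bool :=
  allB m fun u => and (and (Nat.ble (Nat.succ (fld (Nat.succ q) X u)) B)
    (Nat.ble (Nat.succ (fld (Nat.succ q) Y u)) B))
    (and (Nat.ble (Nat.succ (fld (Nat.succ q) U u)) B)
    (Nat.ble (Nat.succ (fld (Nat.succ q) V u)) B))

lemma m2_testBit {v w u : ℕ} (h1 : u ≠ v) (h2 : u ≠ w) : (m2 v w).testBit u = false := by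
  have h : m2 v w = 2 ^ v ||| 2 ^ w := rfl
  rw [h, Nat.testBit_or, Nat.testBit_two_pow_of_ne (Ne.symm h1),
    Nat.testBit_two_pow_of_ne (Ne.symm h2)]
  rfl

lemma m2_lt {m v w : ℕ} (h1 : v < m) (h2 : w < m) : m2 v w < 2 ^ m := by
  have h : m2 v w = 2 ^ v ||| 2 ^ w := rfl
  rw [h]
  exact Nat.or_lt_two_pow (Nat.pow_lt_pow_right (by norm_num) h1)
    (Nat.pow_lt_pow_right (by norm_num) h2)

theorem orient_spec {q m X Y U V T B : ℕ} (hq : 0 < q) (hmq : m ≤ q)
    (hX : X < 2 ^ ((q + 1) * m)) (hY : Y < 2 ^ ((q + 1) * m)) (hB : 3 * B ^ 2 < 2 ^ q)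
    (hb : bnd q m X Y U V B = true)
    (h : ∀ v < m, ∀ w < m, chk q m X Y U V T v w = true) :
    (mkD m (q + 1) X Y U V).Ok ∧ ∀ v w u, (mkD m (q + 1) X Y U V).o v w u =
      T.testBit ((v.val * m + w.val) * (m + 1) + u.val) := by
  have hbs : ∀ u < m, fld (q + 1) X u < B ∧ fld (q + 1) Y u < B ∧ fld (q + 1) U u < B ∧
      fld (q + 1) V u < B := by
    intro u hu
    have := allB_spec hb u hu
    simp only [Bool.and_eq_true, Nat.ble_eq] at this
    exact ⟨this.1.1, this.1.2, this.2.1, this.2.2⟩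
  have hpow : 2 ^ m ≤ 2 ^ q := Nat.pow_le_pow_right (by norm_num) hmq
  have hmod : ∀ x i : ℕ, fld (m + 1) x i % 2 ^ m < 2 ^ q := fun x i =>
    lt_of_lt_of_le (Nat.mod_lt _ (Nat.two_pow_pos m)) hpow
  have hrow : ∀ i e : ℕ, e < m → (Nat.mod (fld (Nat.succ m) T i) (Nat.pow 2 m)).testBit e =
      T.testBit (i * (m + 1) + e) := fun i e he => modrow_testBit T i e he
  have hbt : ∀ i e : ℕ, e < m → bt2 (Nat.succ m) T i e = T.testBit (i * (m + 1) + e) :=
    fun i e he => bt2_eq (m + 1) T i e (by omega)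
  -- diagonal rows
  have diag : ∀ v < m, T.testBit ((v * m + v) * (m + 1) + v) = true ∧ ∀ u < m, u ≠ v →
      ok3 (T.testBit ((v * m + v) * (m + 1) + u)) (fld (q + 1) X v) (fld (q + 1) Y v)
        (fld (q + 1) U v) (fld (q + 1) V v) (fld (q + 1) X u) (fld (q + 1) Y u) = true := by
    intro v hv
    have h1 := h v hv v hv
    unfold chk at h1
    have ev : Nat.beq v v = true := Nat.beq_refl v
    rw [ev, cond_true, Bool.and_eq_true] at h1
    have h2 := h1.1
    rw [hbt _ _ hv] at h2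
    refine ⟨h2, fun u hu huv => ?_⟩
    have h3 := chkRow_spec hq hmq hX hY (hmod T _) (lt_of_lt_of_le (m2_lt hv hv) hpow) hB
      (hbs v hv).1 (hbs v hv).2.1 (hbs v hv).2.2.1 (hbs v hv).2.2.2
      (fun u hu => (hbs u hu).1) (fun u hu => (hbs u hu).2.1) h1.2 u hu (m2_testBit huv huv)
    rw [modrow_testBit T _ u hu] at h3
    exact h3
  have off : ∀ v < m, ∀ w < m, v ≠ w →
      T.testBit ((v * m + w) * (m + 1) + v) = !(T.testBit ((v * m + v) * (m + 1) + w)) ∧
      T.testBit ((v * m + w) * (m + 1) + w) = T.testBit ((w * m + w) * (m + 1) + v) ∧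
      ∀ u < m, u ≠ v → u ≠ w →
      ok3 (T.testBit ((v * m + w) * (m + 1) + u)) (fld (q + 1) X v) (fld (q + 1) Y v)
        (fld (q + 1) X w) (fld (q + 1) Y w) (fld (q + 1) X u) (fld (q + 1) Y u) = true := by
    intro v hv w hw hvw
    have h1 := h v hv w hw
    unfold chk at h1
    have ev : Nat.beq v w = false := by
      cases hb : Nat.beq v w
      · rfl
      · exact absurd (Nat.eq_of_beq_eq_true hb) hvw
    rw [ev, cond_false, Bool.and_eq_true, Bool.and_eq_true] at h1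
    have h2 := eqb_spec h1.1.1
    have h3 := eqb_spec h1.1.2
    rw [hbt _ _ hv, hbt _ _ hw] at h2
    rw [hbt _ _ hw, hbt _ _ hv] at h3
    refine ⟨h2, h3, fun u hu huv huw => ?_⟩
    have h4 := chkRow_spec hq hmq hX hY (hmod T _) (lt_of_lt_of_le (m2_lt hv hw) hpow) hB
      (hbs v hv).1 (hbs v hv).2.1 (hbs w hw).1 (hbs w hw).2.1
      (fun u hu => (hbs u hu).1) (fun u hu => (hbs u hu).2.1) h1.2 u hu (m2_testBit huv huw)
    rw [modrow_testBit T _ u hu] at h4
    exact h4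
  have key : ∀ v w u : Fin m,
      ((v ≠ w → u ≠ v → u ≠ w → (mkD m (q + 1) X Y U V).oz v w u ≠ 0) ∧
      (v = w → w ≠ u → (mkD m (q + 1) X Y U V).sz v u ≠ 0)) ∧
      (mkD m (q + 1) X Y U V).o v w u =
      T.testBit ((v.val * m + w.val) * (m + 1) + u.val) := by
    intro v w u
    by_cases hvw : v = w
    · subst hvw
      by_cases hvu : v = u
      · subst hvu
        refine ⟨⟨fun h => absurd rfl h, fun _ h => absurd rfl h⟩, ?_⟩
        rw [(diag v v.2).1]
        simp [Data.o]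
      · have hne : u.val ≠ v.val := fun hh => hvu (Fin.ext hh.symm)
        have h2 := ok3_spec ((diag v v.2).2 u u.2 hne) (z := (mkD m (q + 1) X Y U V).sz v u)
          (by simp only [Data.sz, mkD])
        refine ⟨⟨fun h => absurd rfl h, fun _ _ => h2.1⟩, ?_⟩
        rw [← h2.2.1]
        simp [Data.o, hvu]
    · have hvwn : v.val ≠ w.val := fun hh => hvw (Fin.ext hh)
      have ho := off v v.2 w w.2 hvwn
      by_cases hvu : v = u
      · subst hvu
        have h2 := ok3_spec ((diag v v.2).2 w w.2 (Ne.symm hvwn))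
          (z := (mkD m (q + 1) X Y U V).sz v w) (by simp only [Data.sz, mkD])
        refine ⟨⟨fun _ h => absurd rfl h, fun h => absurd h hvw⟩, ?_⟩
        rw [ho.1, ← h2.2.2]
        simp [Data.o, hvw]
      · by_cases hwu : w = u
        · subst hwu
          have h2 := ok3_spec ((diag w w.2).2 v v.2 hvwn)
            (z := (mkD m (q + 1) X Y U V).sz w v) (by simp only [Data.sz, mkD])
          refine ⟨⟨fun _ _ h => absurd rfl h, fun h => absurd h hvw⟩, ?_⟩
          rw [ho.2.1, ← h2.2.1]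
          simp [Data.o, hvw]
        · have n1 : u.val ≠ v.val := fun hh => hvu (Fin.ext hh.symm)
          have n2 : u.val ≠ w.val := fun hh => hwu (Fin.ext hh.symm)
          have h2 := ok3_spec (ho.2.2 u u.2 n1 n2) (z := (mkD m (q + 1) X Y U V).oz v w u)
            (by simp only [Data.oz, mkD])
          refine ⟨⟨fun _ _ _ => h2.1, fun h => absurd h hvw⟩, ?_⟩
          rw [← h2.2.1]
          simp [Data.o, hvw, hvu, hwu]
  exact ⟨⟨fun v w u h1 h2 h3 => (key v w u).1.1 h1 h2 h3,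
    fun v w h1 => (key v v w).1.2 rfl h1⟩, fun v w u => (key v w u).2⟩

end Pool.Agent.Y765.Bi
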