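import Pool.Agent.Y765.Bi.T64

set_option autoImplicit false

namespace Pool.Agent.Y765.Bi.T64

set_option maxRecDepth 100000 in
lemma chk0_1 : chkBlk 64 64 cX0 cY0 cU0 cV0 tT0 32 32 = true := by
  decide +kernel

set_option maxRecDepth 100000 in
lemma row0_1 : rowP 64 260 tT0 tK0 32 32 = 426140 := by
  decide +kernel

end Pool.Agent.Y765.Bi.T64
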