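import Pool.Agent.Y765.Bi.T64

set_option autoImplicit false

namespace Pool.Agent.Y765.Bi.T64

set_option maxRecDepth 100000 in
lemma chk1_1 : chkBlk 64 64 cX1 cY1 cU1 cV1 tT1 32 32 = true := by
  decide +kernel

set_option maxRecDepth 100000 in
lemma row1_1 : rowP 64 260 tT1 tK1 32 32 = 415103 := by
  decide +kernel

end Pool.Agent.Y765.Bi.T64
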