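import Pool.Agent.Y765.Bi.T64C0a
import Pool.Agent.Y765.Bi.T64C0b
import Pool.Agent.Y765.Bi.T64C1a
import Pool.Agent.Y765.Bi.T64C1b

set_option autoImplicit false

namespace Pool.Agent.Y765.Bi.T64

open Pool.Agent.Helper770.Crossing

lemma colOk : chkCol 64 tK0 tK1 = true := by decide +kernel

lemma small : (cX0 < 2 ^ ((64 + 1) * 64) ∧ cY0 < 2 ^ ((64 + 1) * 64)) ∧
    (cX1 < 2 ^ ((64 + 1) * 64) ∧ cY1 < 2 ^ ((64 + 1) * 64)) := by decide +kernel

lemma bnd0 : bnd 64 64 cX0 cY0 cU0 cV0 16777216 = true := by decide +kernel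

lemma chkAll0 : ∀ v < 64, ∀ w < 64, chk 64 64 cX0 cY0 cU0 cV0 tT0 v w = true := by
  have key : ∀ s, chkBlk 64 64 cX0 cY0 cU0 cV0 tT0 s 32 = true → ∀ v, s ≤ v → v < s + 32 →
      ∀ w < 64, chk 64 64 cX0 cY0 cU0 cV0 tT0 v w = true := by
    intro s hs v h1 h2 w hw
    have h3 := allB_spec (allB_spec hs (v - s) (by omega)) w hw
    have e : Nat.add s (v - s) = v := Nat.add_sub_cancel' h1
    rw [e] at h3
    exact h3
  intro v hv
  rcases lt_or_ge v 32 with h | h
  · exact key 0 chk0_0 v (by omega) (by omega)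
  exact key 32 chk0_1 v (by omega) (by omega)

lemma total0 : rowP 64 260 tT0 tK0 0 64 = 840805 := by
  have h0 : rowP 64 260 tT0 tK0 0 32 = 414665 := row0_0
  have h1 : rowP 64 260 tT0 tK0 0 (32 + 32) = 840805 := by
    rw [rowP_add, h0, Nat.zero_add, row0_1]
  exact h1

lemma bnd1 : bnd 64 64 cX1 cY1 cU1 cV1 16777216 = true := by decide +kernel

lemma chkAll1 : ∀ v < 64, ∀ w < 64, chk 64 64 cX1 cY1 cU1 cV1 tT1 v w = true := by
  have key : ∀ s, chkBlk 64 64 cX1 cY1 cU1 cV1 tT1 s 32 = true → ∀ v, s ≤ v → v < s + 32 →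
      ∀ w < 64, chk 64 64 cX1 cY1 cU1 cV1 tT1 v w = true := by
    intro s hs v h1 h2 w hw
    have h3 := allB_spec (allB_spec hs (v - s) (by omega)) w hw
    have e : Nat.add s (v - s) = v := Nat.add_sub_cancel' h1
    rw [e] at h3
    exact h3
  intro v hv
  rcases lt_or_ge v 32 with h | h
  · exact key 0 chk1_0 v (by omega) (by omega)
  exact key 32 chk1_1 v (by omega) (by omega)

lemma total1 : rowP 64 260 tT1 tK1 0 64 = 844935 := by
  have h0 : rowP 64 260 tT1 tK1 0 32 = 429832 := row1_0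
  have h1 : rowP 64 260 tT1 tK1 0 (32 + 32) = 844935 := by
    rw [rowP_add, h0, Nat.zero_add, row1_1]
  exact h1

theorem bound (t : ℕ) : biplanarCrossingNumber (⊤ : SimpleGraph (Fin 64 × Fin t)) ≤
    t.choose 4 * 1685740 + 4 * (t ^ 3 * 64 ^ 4) :=
  bound_of (q := 64) (m := 64) (n := 260) (B := 16777216) (by norm_num) (by norm_num) (by norm_num)
    (by norm_num) (by norm_num) (by norm_num) small.1.1 small.1.2 small.2.1 small.2.2
    bnd0 bnd1 chkAll0 chkAll1 colOk (by rw [total0, total1]) t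

end Pool.Agent.Y765.Bi.T64
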