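import Pool.Agent.Y765.Bi.Orient

set_option autoImplicit false

namespace Pool.Agent.Y765.Bi

open Pool.Agent.Helper770.Blowup Pool.Agent.Helper770.Blowup.Data
open Pool.Agent.Helper770.Crossing

/-- the colour tables are complementary and symmetric -/
def chkCol (m K0 K1 : Nat) : Bool :=
  allB m fun v => allB m fun w =>
    and (eqb (bt2 (Nat.succ m) K0 v w) (not (bt2 (Nat.succ m) K1 v w)))
      (eqb (bt2 (Nat.succ m) K1 v w) (bt2 (Nat.succ m) K1 w v))

/-- all pair checks of a block of rows -/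
def chkBlk (q m X Y U V T s l : Nat) : Bool :=
  allB l fun v => allB m fun w => chk q m X Y U V T (Nat.add s v) w

theorem bound_of {q m n B M X0 Y0 U0 V0 T0' K0 X1 Y1 U1 V1 T1' K1 : ℕ} (hq : 0 < q)
    (hm : 3 ≤ m) (hmq : m ≤ q) (h16 : 16 * n = (m + 1) * m) (hlt : 16 * n < 65535)
    (hB : 3 * B ^ 2 < 2 ^ q)
    (hX0 : X0 < 2 ^ ((q + 1) * m)) (hY0 : Y0 < 2 ^ ((q + 1) * m))
    (hX1 : X1 < 2 ^ ((q + 1) * m)) (hY1 : Y1 < 2 ^ ((q + 1) * m))
    (hb0 : bnd q m X0 Y0 U0 V0 B = true) (hb1 : bnd q m X1 Y1 U1 V1 B = true)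
    (h0 : ∀ v < m, ∀ w < m, chk q m X0 Y0 U0 V0 T0' v w = true)
    (h1 : ∀ v < m, ∀ w < m, chk q m X1 Y1 U1 V1 T1' v w = true)
    (hc : chkCol m K0 K1 = true)
    (hM : rowP m n T0' K0 0 m + rowP m n T1' K1 0 m ≤ M) (t : ℕ) :
    biplanarCrossingNumber (⊤ : SimpleGraph (Fin m × Fin t)) ≤
      t.choose 4 * M + 4 * (t ^ 3 * m ^ 4) := by
  obtain ⟨ok0, o0⟩ := orient_spec hq hmq hX0 hY0 hB hb0 h0
  obtain ⟨ok1, o1⟩ := orient_spec hq hmq hX1 hY1 hB hb1 h1
  let col : Fin m → Fin m → Bool := fun v w => K1.testBit (v.val * (m + 1) + w.val)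
  have hcs : ∀ v w : Fin m, K0.testBit (v.val * (m + 1) + w.val) =
      (!(K1.testBit (v.val * (m + 1) + w.val))) ∧
      K1.testBit (v.val * (m + 1) + w.val) = K1.testBit (w.val * (m + 1) + v.val) := by
    intro v w
    have h2 := allB_spec (allB_spec hc v.val v.2) w.val w.2
    rw [Bool.and_eq_true] at h2
    have h3 := eqb_spec h2.1
    have h4 := eqb_spec h2.2
    have e : ∀ K (v w : Fin m), bt2 (Nat.succ m) K v.val w.val =
        K.testBit (v.val * (m + 1) + w.val) := fun K v w => bt2_eq (m + 1) K v w (by omega)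
    rw [e, e] at h3 h4
    exact ⟨h3, h4⟩
  refine blow (D₀ := mkD m (q + 1) X0 Y0 U0 V0) (D₁ := mkD m (q + 1) X1 Y1 U1 V1) (col := col)
    ok0 ok1 hm (fun v w => (hcs v w).2) M ?_ t
  rw [countP h16 hlt _ col false T0' K0 o0 ?_, countP h16 hlt _ col true T1' K1 o1 ?_]
  · exact hM
  · intro v w
    exact Iff.rfl
  · intro v w
    rw [(hcs v w).1]
    simp only [col]
    cases K1.testBit (v.val * (m + 1) + w.val) <;> simp

end Pool.Agent.Y765.Bi
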